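import Pool.Agent.H44.EFEnd

set_option autoImplicit false

namespace Pool.Agent.Results.MP_a692c2_lc.LargestHard

open Pool.Agent.H44

/-- SUBSET-SUM reduces to computing `D(x/y)`, even within a factor close to `3/2`, by a
polynomial time randomized many-one reduction with one-sided error. -/
theorem result :
    ∃ (R : (List ℕ × ℕ) × List Bool → ℕ × ℕ) (ℓ : Polynomial ℕ),
      Nonempty (Turing.TM2ComputableInPolyTime encInst encPair R) ∧
      ∀ (b : List ℕ) (B n : ℕ), n = (encInst ((b, B), [])).length →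
        (∀ ρ : List Bool, 0 < (R ((b, B), ρ)).1 ∧ (R ((b, B), ρ)).1 < (R ((b, B), ρ)).2) ∧
        (SubsetSum b B →
          ∀ ρ : List Bool,
            (minLargest (R ((b, B), ρ)).1 (R ((b, B), ρ)).2 : ℚ) ≤
              (2 + 1 / 2 ^ n) * ((R ((b, B), ρ)).2 / (R ((b, B), ρ)).1)) ∧
        (¬ SubsetSum b B →
          Nat.card {ρ : Fin (ℓ.eval n) → Bool //
            (minLargest (R ((b, B), List.ofFn ρ)).1 (R ((b, B), List.ofFn ρ)).2 : ℚ) ≤
              3 * ((R ((b, B), List.ofFn ρ)).2 / (R ((b, B), List.ofFn ρ)).1)} *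
              4 ^ (n + 1) ≤ 2 ^ ℓ.eval n) := by
  refine ⟨red, ellP, red_computable, ?_⟩
  intro b B n hn
  rw [encInst_length] at hn
  subst hn
  refine ⟨red_lt b B, ?_, ?_⟩
  · intro h ρ
    have h0 := yes_largest b B h ρ
    obtain ⟨h1, h2⟩ := red_lt b B ρ
    have h1q : (0 : ℚ) < ((red ((b, B), ρ)).1 : ℚ) := by exact_mod_cast h1
    have h0q : (2 : ℚ) ^ isize b B * ((minLargest (red ((b, B), ρ)).1 (red ((b, B), ρ)).2 : ℚ) *
        ((red ((b, B), ρ)).1 : ℚ)) ≤ (2 * 2 ^ isize b B + 1) * ((red ((b, B), ρ)).2 : ℚ) := by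
      exact_mod_cast h0
    rw [← mul_div_assoc, le_div_iff₀ h1q]
    have h3 : (0 : ℚ) < 2 ^ isize b B := by positivity
    have h4 : (2 + 1 / 2 ^ isize b B : ℚ) = (2 * 2 ^ isize b B + 1) / 2 ^ isize b B := by
      field_simp
    rw [h4, div_mul_eq_mul_div, le_div_iff₀ h3]
    linarith
  · intro h
    rw [ellP_eval]
    apply no_card b B h
    intro ρ hρ
    obtain ⟨h1, h2⟩ := red_lt b B (List.ofFn ρ)
    obtain ⟨s, hs, hc⟩ := minLargest_spec h1 h2
    refine ⟨s, hs, ?_⟩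
    by_contra hcon
    have h3 := large_of_three_le (h1.trans h2) hs (by omega)
    rw [hc] at h3
    have h1q : (0 : ℚ) < ((red ((b, B), List.ofFn ρ)).1 : ℚ) := by exact_mod_cast h1
    rw [← mul_div_assoc, le_div_iff₀ h1q] at hρ
    have h4 : minLargest (red ((b, B), List.ofFn ρ)).1 (red ((b, B), List.ofFn ρ)).2 *
        (red ((b, B), List.ofFn ρ)).1 ≤ 3 * (red ((b, B), List.ofFn ρ)).2 := by exact_mod_cast hρ
    omega

end Pool.Agent.Results.MP_a692c2_lc.LargestHard
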