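import Pool.Agent.DHD.Final

set_option autoImplicit false

namespace Pool.Agent.Results.MP_a692c2_lc.LargestNPComplete

open Pool.Agent.PAH (DecisionProblem)
open Pool.Agent.CookLevin (InNP NPHard)
open Pool.Agent.DHD (largestDenominator largestDenominatorUnary PolyTimeD InP)

/-- Deciding `D(x/y) ≤ N` is NP-hard under deterministic polynomial time many-one reductions, even
if `N` is written in unary, and in this form it is NP-complete; if `D(x/y)` can be computed in
polynomial time then P = NP. -/
theorem result :
    NPHard largestDenominator ∧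
    (InNP largestDenominatorUnary ∧ NPHard largestDenominatorUnary) ∧
    (PolyTimeD → ∀ P : DecisionProblem, InNP P → InP P) :=
  ⟨Pool.Agent.DHD.hard.1, ⟨Pool.Agent.DHD.inNP, Pool.Agent.DHD.hard.2⟩, Pool.Agent.DHD.polyTimeD⟩

end Pool.Agent.Results.MP_a692c2_lc.LargestNPComplete
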