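import Pool.Agent.H44.EFEnd

set_option autoImplicit false

namespace Pool.Agent.Results.MP_a692c2_lc.LengthHard

open Pool.Agent.H44

/-- SUBSET-SUM reduces to deciding `L(x/y) ≤ 2` by a polynomial time randomized many-one
reduction with one-sided error. -/
theorem result :
    ∃ (R : (List ℕ × ℕ) × List Bool → ℕ × ℕ) (ℓ : Polynomial ℕ),
      Nonempty (Turing.TM2ComputableInPolyTime encInst encPair R) ∧
      ∀ (b : List ℕ) (B n : ℕ), n = (encInst ((b, B), [])).length →
        (∀ ρ : List Bool, 0 < (R ((b, B), ρ)).1 ∧ (R ((b, B), ρ)).1 < (R ((b, B), ρ)).2) ∧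
        (SubsetSum b B →
          ∀ ρ : List Bool, minLength (R ((b, B), ρ)).1 (R ((b, B), ρ)).2 = 2) ∧
        (¬ SubsetSum b B →
          Nat.card {ρ : Fin (ℓ.eval n) → Bool //
            minLength (R ((b, B), List.ofFn ρ)).1 (R ((b, B), List.ofFn ρ)).2 ≤ 2} *
              4 ^ (n + 1) ≤ 2 ^ ℓ.eval n) := by
  refine ⟨red, ellP, red_computable, ?_⟩
  intro b B n hn
  rw [encInst_length] at hn
  subst hn
  refine ⟨red_lt b B, yes_length b B, ?_⟩
  intro h
  rw [ellP_eval]
  apply no_card b B h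
  intro ρ hρ
  obtain ⟨h1, h2⟩ := red_lt b B (List.ofFn ρ)
  obtain ⟨s, hs, hc⟩ := minLength_spec h1 h2
  exact ⟨s, hs, by rw [hc]; exact hρ⟩

end Pool.Agent.Results.MP_a692c2_lc.LengthHard
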